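import Pool.Agent.N343.TC.Stm

/-! Project TC (MP_8dfb46_an), step SAND: a round disc between two conformal images. -/

set_option autoImplicit false

open MeasureTheory Set Filter Topology Metric Complex
open scoped ContDiff RealInnerProductSpace ComplexConjugate

namespace Pool.Agent.N8.TC.SAND

open Pool.Agent.N343.TC

/-- the bound on `H - 1` -/
theorem near_bd {lam C : ℝ} {k : ℕ} {H : ℂ → ℂ} (hk : 1 ≤ k) (h : Near lam C k H) {x : ℂ}
    (hx : ‖x‖ < 2) : ‖H x - 1‖ ≤ (2 * |lam| + |C| + 1) / (k : ℝ) ^ 2 := by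
  have hk' : (1 : ℝ) ≤ k := by exact_mod_cast hk
  have h1 := h.2 x (by simpa using hx)
  have h2 : ‖(k : ℂ) ^ 2 * (H x - 1)‖ ≤ C / k + |lam| * ‖x‖ := by
    have e : (k : ℂ) ^ 2 * (H x - 1) = ((k : ℂ) ^ 2 * (H x - 1) - (lam : ℂ) * x) + (lam : ℂ) * x := by
      ring
    rw [e]
    refine (norm_add_le _ _).trans ?_
    have e2 : ‖(lam : ℂ) * x‖ = |lam| * ‖x‖ := by
      rw [norm_mul, Complex.norm_real, Real.norm_eq_abs]
    rw [e2]
    linarith
  have h3 : C / k ≤ |C| := by
    refine (div_le_div_of_nonneg_right (le_abs_self C) (by linarith)).trans ?_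
    exact div_le_self (abs_nonneg C) hk'
  have h4 : |lam| * ‖x‖ ≤ 2 * |lam| := by
    have := mul_le_mul_of_nonneg_left hx.le (abs_nonneg lam)
    linarith
  rw [norm_mul, norm_pow, Complex.norm_natCast] at h2
  rw [le_div_iff₀ (by positivity)]
  nlinarith

theorem main (hI : S_INJ) : S_SAND := by
  intro lam C
  obtain ⟨K₁, hK₁⟩ := hI lam C
  set E : ℝ := 2 * |lam| + |C| + 1 with hE
  have hEpos : 0 < E := by
    have h1 := abs_nonneg lam
    have h2 := abs_nonneg C
    rw [hE]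
    linarith
  set δ : ℝ := Real.log (21 / 20) with hδ
  have hδpos : 0 < δ := Real.log_pos (by norm_num)
  refine ⟨max K₁ (⌈(2 * E + E * δ) / δ⌉₊ + 1), ?_⟩
  intro k hk R H hR hN
  have hk1 : K₁ ≤ k := le_trans (le_max_left _ _) hk
  have hk2 : ⌈(2 * E + E * δ) / δ⌉₊ + 1 ≤ k := le_trans (le_max_right _ _) hk
  have hk0 : 1 ≤ k := by omega
  have hkr : (1 : ℝ) ≤ k := by exact_mod_cast hk0
  have hkpos : (0 : ℝ) < k := by linarith
  have hkne : (k : ℝ) ≠ 0 := hkpos.ne'
  have hk3 : 2 * E + E * δ < δ * k := by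
    have h1 : (2 * E + E * δ) / δ ≤ ⌈(2 * E + E * δ) / δ⌉₊ := Nat.le_ceil _
    have h2 : ((⌈(2 * E + E * δ) / δ⌉₊ : ℕ) : ℝ) + 1 ≤ k := by exact_mod_cast hk2
    have h3 : (2 * E + E * δ) / δ < k := by linarith
    rw [div_lt_iff₀ hδpos] at h3
    linarith
  obtain ⟨hr1, hdiff, hinj, hder⟩ := hK₁ k hk1 R H hR hN
  set f := mk R k H with hf
  have hkinv : (0 : ℝ) < 1 / k := by positivity
  have h11 : 1 < (11 / 10 : ℝ) ^ ((1 : ℝ) / k) := Real.one_lt_rpow (by norm_num) hkinv
  refine ⟨h11, ?_⟩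
  set ρ : ℝ := (21 / 20 : ℝ) ^ ((1 : ℝ) / k) with hρ
  have hρ1 : 1 < ρ := Real.one_lt_rpow (by norm_num) hkinv
  have hρk : ρ ^ k = 21 / 20 := by
    rw [hρ, ← Real.rpow_natCast, ← Real.rpow_mul (by norm_num), one_div, inv_mul_cancel₀ hkne,
      Real.rpow_one]
  have hρlow : 1 + δ / k ≤ ρ := by
    have h1 := Real.add_one_le_exp (δ / k)
    rw [hρ, Real.rpow_def_of_pos (by norm_num)]
    have e : Real.log (21 / 20) * (1 / (k : ℝ)) = δ / k := by
      rw [hδ]
      ring
    rw [e]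
    linarith
  have hρle : ρ ≤ (11 / 10 : ℝ) ^ ((1 : ℝ) / k) :=
    Real.rpow_le_rpow (by norm_num) (by norm_num) hkinv.le
  have hρrr : ρ < rr k := Real.rpow_lt_rpow (by norm_num) (by norm_num) hkinv
  set e : ℝ := E / (k : ℝ) ^ 2 with he
  have hepos : 0 < e := by positivity
  have hmain : 1 + e < (1 + δ / k) * (1 - e) := by
    have h1 : (1 + δ / k) * (1 - e) - (1 + e) = (δ * k ^ 2 - 2 * E * k - E * δ) / (k : ℝ) ^ 3 := by
      rw [he]
      field_simp
      ring
    have h2 : 0 < δ * k ^ 2 - 2 * E * k - E * δ := by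
      have h3 : (2 * E + E * δ) * k < δ * k * k := mul_lt_mul_of_pos_right hk3 hkpos
      have h4 : E * δ ≤ E * δ * k := le_mul_of_one_le_right (by positivity) hkr
      nlinarith
    have h3 : 0 < (δ * k ^ 2 - 2 * E * k - E * δ) / (k : ℝ) ^ 3 := by positivity
    linarith
  have he1 : 0 < 1 - e := by
    by_contra hcon
    have h1 : (1 + δ / k) * (1 - e) ≤ 0 :=
      mul_nonpos_of_nonneg_of_nonpos (by positivity) (by linarith)
    linarith
  have hfn : ∀ w, ‖f w‖ = R * ‖w‖ * ‖H (w ^ k)‖ := by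
    intro w
    show ‖(R : ℂ) * w * H (w ^ k)‖ = _
    rw [norm_mul, norm_mul, Complex.norm_real, Real.norm_of_nonneg hR.le]
  have hHup : ∀ x : ℂ, ‖x‖ < 2 → ‖H x‖ ≤ 1 + e := by
    intro x hx
    have h1 := near_bd hk0 hN hx
    have h2 : ‖H x‖ ≤ ‖H x - 1‖ + ‖(1 : ℂ)‖ := by
      simpa using norm_add_le (H x - 1) 1
    rw [norm_one] at h2
    linarith
  have hHlow : ∀ x : ℂ, ‖x‖ < 2 → 1 - e ≤ ‖H x‖ := by
    intro x hx
    have h1 := near_bd hk0 hN hx
    have h2 : ‖(1 : ℂ)‖ - ‖H x‖ ≤ ‖H x - 1‖ := by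
      rw [← norm_neg (H x - 1), neg_sub]
      exact norm_sub_norm_le _ _
    rw [norm_one] at h2
    linarith
  refine ⟨R * (1 + e), ?_, ?_⟩
  · rintro _ ⟨w, hw, rfl⟩
    rw [mem_ball_zero_iff] at hw ⊢
    rw [hfn]
    have h1 : ‖w ^ k‖ < 2 := by
      rw [norm_pow]
      have := pow_le_one₀ (norm_nonneg w) hw.le (n := k)
      linarith
    have h2 := hHup _ h1
    calc R * ‖w‖ * ‖H (w ^ k)‖ ≤ R * ‖w‖ * (1 + e) :=
          mul_le_mul_of_nonneg_left h2 (by positivity)
      _ = R * (1 + e) * ‖w‖ := by ring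
      _ < R * (1 + e) * 1 := mul_lt_mul_of_pos_left hw (by positivity)
      _ = R * (1 + e) := mul_one _
  · have hsub : ball (0 : ℂ) (R * (1 + e)) ⊆ f '' ball 0 ρ := by
      have hpre : IsPreconnected (ball (0 : ℂ) (R * (1 + e))) := (convex_ball _ _).isPreconnected
      have hopen : IsOpen (f '' ball 0 ρ) := by
        rw [isOpen_iff_mem_nhds]
        rintro _ ⟨w, hw, rfl⟩
        have hw' : w ∈ ball (0 : ℂ) (rr k) := ball_subset_ball hρrr.le hw
        have han : AnalyticAt ℂ f w := hdiff.analyticAt (isOpen_ball.mem_nhds hw')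
        have hst := han.hasStrictDerivAt
        have hmap := hst.map_nhds_eq (hder w hw')
        rw [← hmap]
        exact image_mem_map (isOpen_ball.mem_nhds hw)
      have hcl : closure (f '' ball 0 ρ) ⊆ f '' closedBall 0 ρ := by
        refine closure_minimal (image_mono ball_subset_closedBall) ?_
        have hc : ContinuousOn f (closedBall 0 ρ) :=
          hdiff.continuousOn.mono (closedBall_subset_ball hρrr)
        exact ((isCompact_closedBall (0 : ℂ) ρ).image_of_continuousOn hc).isClosed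
      refine hpre.subset_of_closure_inter_subset hopen ⟨0, ?_, ?_⟩ ?_
      · rw [mem_ball_zero_iff, norm_zero]
        positivity
      · refine ⟨0, ?_, ?_⟩
        · rw [mem_ball_zero_iff, norm_zero]
          linarith
        · show (R : ℂ) * 0 * H (0 ^ k) = 0
          ring
      · rintro y ⟨hy1, hy2⟩
        obtain ⟨w, hw, rfl⟩ := hcl hy1
        rw [mem_closedBall_zero_iff] at hw
        rcases lt_or_eq_of_le hw with h | h
        · exact ⟨w, by rwa [mem_ball_zero_iff], rfl⟩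
        · exfalso
          rw [mem_ball_zero_iff, hfn, h] at hy2
          have h1 : ‖w ^ k‖ < 2 := by
            rw [norm_pow, h, hρk]
            norm_num
          have h2 := hHlow _ h1
          have h3 : R * ((1 + δ / k) * (1 - e)) ≤ R * ρ * ‖H (w ^ k)‖ := by
            rw [mul_assoc]
            refine mul_le_mul_of_nonneg_left ?_ hR.le
            exact mul_le_mul hρlow h2 he1.le (by linarith)
          have h4 : R * (1 + e) < R * ((1 + δ / k) * (1 - e)) := mul_lt_mul_of_pos_left hmain hR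
          linarith
    exact hsub.trans (image_mono (ball_subset_ball hρle))

end Pool.Agent.N8.TC.SAND
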